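import Pool.Agent.K1H53.BI.Plan5

/-!
# Lattice sums in the ball
-/

set_option autoImplicit false

open Finset

namespace Pool.Agent.K1H36.BI3

open Pool.Agent.K1H53.BI

/-! ### the norm -/

theorem nsq_real (x : V) : (nsq x : ℝ) = (x 0 : ℝ) ^ 2 + (x 1 : ℝ) ^ 2 + (x 2 : ℝ) ^ 2 := by
  have h : (nsq x : ℤ) = x 0 ^ 2 + x 1 ^ 2 + x 2 ^ 2 := by
    unfold nsq
    rw [Fin.sum_univ_three]
    push_cast
    simp only [sq_abs]
  exact_mod_cast h

theorem nsq_neg (x : V) : nsq (-x) = nsq x := by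
  unfold nsq
  simp

theorem nsq_sub_comm (x y : V) : nsq (x - y) = nsq (y - x) := by
  rw [← nsq_neg (x - y), neg_sub]

/-- `sqrt (|w|² + 1)` -/
noncomputable def dd (w : V) : ℝ := Real.sqrt ((nsq w : ℝ) + 1)

theorem dd_sq (w : V) : dd w ^ 2 = (nsq w : ℝ) + 1 := Real.sq_sqrt (by positivity)

theorem one_le_dd (w : V) : 1 ≤ dd w := by
  unfold dd
  rw [Real.one_le_sqrt]
  have : (0 : ℝ) ≤ nsq w := Nat.cast_nonneg _
  linarith

theorem dd_pos (w : V) : 0 < dd w := lt_of_lt_of_le one_pos (one_le_dd w)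

theorem nrm_nonneg (w : V) : 0 ≤ nrm w := Real.sqrt_nonneg _

theorem nrm_sq (w : V) : nrm w ^ 2 = (nsq w : ℝ) := Real.sq_sqrt (by positivity)

theorem nrm_le_dd (w : V) : nrm w ≤ dd w := Real.sqrt_le_sqrt (by linarith)

theorem dd_comm (x y : V) : dd (x - y) = dd (y - x) := by
  unfold dd
  rw [nsq_sub_comm]

theorem nsq_add_le (x y : V) : (nsq (x + y) : ℝ) ≤ nsq x + nsq y + 2 * (nrm x * nrm y) := by
  have h1 : (x 0 : ℝ) * y 0 + x 1 * y 1 + x 2 * y 2 ≤ nrm x * nrm y := by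
    refine le_of_sq_le_sq ?_ (mul_nonneg (nrm_nonneg _) (nrm_nonneg _))
    rw [mul_pow, nrm_sq, nrm_sq, nsq_real, nsq_real]
    nlinarith [sq_nonneg ((x 0 : ℝ) * y 1 - x 1 * y 0), sq_nonneg ((x 0 : ℝ) * y 2 - x 2 * y 0),
      sq_nonneg ((x 1 : ℝ) * y 2 - x 2 * y 1)]
  have h2 : (nsq (x + y) : ℝ) = nsq x + nsq y +
      2 * ((x 0 : ℝ) * y 0 + x 1 * y 1 + x 2 * y 2) := by
    rw [nsq_real, nsq_real, nsq_real]
    simp only [Pi.add_apply]
    push_cast
    ring
  linarith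

theorem nrm_add_le (x y : V) : nrm (x + y) ≤ nrm x + nrm y := by
  have h0 := nrm_nonneg x
  have h1 := nrm_nonneg y
  refine le_of_sq_le_sq ?_ (add_nonneg h0 h1)
  have h2 := nsq_add_le x y
  rw [nrm_sq]
  nlinarith [nrm_sq x, nrm_sq y]

theorem dd_add_le (x y : V) : dd (x + y) ≤ dd x + dd y := by
  have h0 := dd_pos x
  have h1 := dd_pos y
  refine le_of_sq_le_sq ?_ (add_nonneg h0.le h1.le)
  have h2 := nsq_add_le x y
  have h3 : nrm x * nrm y ≤ dd x * dd y :=
    mul_le_mul (nrm_le_dd x) (nrm_le_dd y) (nrm_nonneg _) h0.le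
  rw [dd_sq]
  nlinarith [dd_sq x, dd_sq y]

/-! ### shells of the cube -/

/-- the sup norm -/
def sn (w : V) : ℕ := univ.sup fun i => (w i).natAbs

theorem le_sn (w : V) (i : Fin 3) : (w i).natAbs ≤ sn w :=
  le_sup (f := fun i => (w i).natAbs) (mem_univ i)

theorem exists_sn (w : V) : ∃ i, (w i).natAbs = sn w := by
  obtain ⟨i, _, hi⟩ := exists_mem_eq_sup univ ⟨0, mem_univ _⟩ (fun i : Fin 3 => (w i).natAbs)
  exact ⟨i, hi.symm⟩

theorem sn_sq_le (w : V) : sn w ^ 2 ≤ nsq w := by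
  obtain ⟨i, hi⟩ := exists_sn w
  rw [← hi]
  exact single_le_sum (f := fun i => (w i).natAbs ^ 2) (fun _ _ => Nat.zero_le _) (mem_univ i)

/-- the shell -/
noncomputable def shl (k : ℕ) : Finset V := univ.biUnion fun i : Fin 3 =>
  Fintype.piFinset fun j : Fin 3 => if j = i then ({(k : ℤ), -(k : ℤ)} : Finset ℤ)
    else Icc (-(k : ℤ)) k

theorem mem_shl (w : V) : w ∈ shl (sn w) := by
  obtain ⟨i, hi⟩ := exists_sn w
  unfold shl
  rw [mem_biUnion]
  refine ⟨i, mem_univ _, ?_⟩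
  rw [Fintype.mem_piFinset]
  intro j
  split_ifs with hj
  · subst hj
    rw [mem_insert, mem_singleton]
    omega
  · have := le_sn w j
    rw [mem_Icc]
    omega

theorem card_shl (k : ℕ) : (shl k).card ≤ 24 * (k + 1) ^ 2 := by
  have h2 : ({(k : ℤ), -(k : ℤ)} : Finset ℤ).card ≤ 2 := card_le_two
  have h3 : (Icc (-(k : ℤ)) k).card = 2 * k + 1 := by
    rw [Int.card_Icc]
    omega
  have h1 : ∀ i : Fin 3, (Fintype.piFinset fun j : Fin 3 =>
      if j = i then ({(k : ℤ), -(k : ℤ)} : Finset ℤ) else Icc (-(k : ℤ)) k).card ≤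
      2 * (2 * k + 1) ^ 2 := by
    intro i
    rw [Fintype.card_piFinset, Fin.prod_univ_three]
    fin_cases i
    · simp only [Fin.zero_eta, Fin.isValue, if_true, one_ne_zero, if_false, h3]
      have : ((2 : Fin 3) = 0) = False := by decide
      simp only [this, if_false, h3]
      nlinarith [Nat.mul_le_mul_right ((2 * k + 1) ^ 2) h2]
    · simp only [Fin.mk_one, Fin.isValue, if_true, zero_ne_one, if_false, h3]
      have : ((2 : Fin 3) = 1) = False := by decide
      simp only [this, if_false, h3]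
      nlinarith [Nat.mul_le_mul_right ((2 * k + 1) ^ 2) h2]
    · simp only [Fin.reduceFinMk, Fin.isValue, if_true]
      have e1 : ((0 : Fin 3) = 2) = False := by decide
      have e2 : ((1 : Fin 3) = 2) = False := by decide
      simp only [e1, e2, if_false, h3]
      nlinarith [Nat.mul_le_mul_right ((2 * k + 1) ^ 2) h2]
  calc (shl k).card ≤ ∑ i : Fin 3, (Fintype.piFinset fun j : Fin 3 =>
      if j = i then ({(k : ℤ), -(k : ℤ)} : Finset ℤ) else Icc (-(k : ℤ)) k).card :=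
        card_biUnion_le
    _ ≤ ∑ _i : Fin 3, 2 * (2 * k + 1) ^ 2 := sum_le_sum fun i _ => h1 i
    _ ≤ 24 * (k + 1) ^ 2 := by
        simp
        nlinarith

theorem shell_sum (B : Finset V) (z : V) (N : ℕ) (f : V → ℝ) (F : ℕ → ℝ) (hF : ∀ k, 0 ≤ F k)
    (hN : ∀ y ∈ B, sn (y - z) ≤ N) (hf : ∀ y ∈ B, f y ≤ F (sn (y - z))) :
    ∑ y ∈ B, f y ≤ ∑ k ∈ range (N + 1), 24 * ((k : ℝ) + 1) ^ 2 * F k := by
  calc ∑ y ∈ B, f y ≤ ∑ y ∈ B, F (sn (y - z)) := sum_le_sum hf
    _ = ∑ k ∈ range (N + 1), ∑ y ∈ B.filter (fun y => sn (y - z) = k), F (sn (y - z)) := by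
        refine (sum_fiberwise_of_maps_to (fun y hy => ?_) _).symm
        rw [mem_range]
        have := hN y hy
        omega
    _ = ∑ k ∈ range (N + 1), ((B.filter (fun y => sn (y - z) = k)).card : ℝ) * F k := by
        refine sum_congr rfl fun k _ => ?_
        rw [← nsmul_eq_mul, ← sum_const]
        refine sum_congr rfl fun y hy => ?_
        rw [(mem_filter.1 hy).2]
    _ ≤ ∑ k ∈ range (N + 1), 24 * ((k : ℝ) + 1) ^ 2 * F k := by
        refine sum_le_sum fun k _ => mul_le_mul_of_nonneg_right ?_ (hF k)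
        have h1 : (B.filter (fun y => sn (y - z) = k)).card ≤ (shl k).card := by
          refine card_le_card_of_injOn (fun y => y - z) ?_ ?_
          · intro y hy
            have := (mem_filter.1 hy).2
            have h2 := mem_shl (y - z)
            rw [this] at h2
            exact h2
          · intro y _ y' _ h
            exact sub_left_injective h
        exact_mod_cast h1.trans (card_shl k)

theorem natAbs_le {R : ℕ} {x : V} (h : nsq x ≤ R ^ 2) (i : Fin 3) : (x i).natAbs ≤ R := by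
  have h1 : (x i).natAbs ^ 2 ≤ nsq x := by
    unfold nsq
    exact Finset.single_le_sum (f := fun i => (x i).natAbs ^ 2) (fun _ _ => Nat.zero_le _)
      (Finset.mem_univ i)
  exact (Nat.pow_le_pow_iff_left (by norm_num)).1 (h1.trans h)

theorem sn_le {R : ℕ} {y z : V} (hy : nsq y ≤ R ^ 2) (hz : nsq z ≤ R ^ 2) : sn (y - z) ≤ 2 * R := by
  refine Finset.sup_le fun i _ => ?_
  have h1 := natAbs_le hy i
  have h2 := natAbs_le hz i
  simp only [Pi.sub_apply]
  omega

theorem dd_lower (w : V) : ((sn w : ℝ) + 1) ^ 2 / 2 ≤ dd w ^ 2 := by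
  rw [dd_sq]
  have h : ((sn w : ℝ)) ^ 2 ≤ nsq w := by exact_mod_cast sn_sq_le w
  nlinarith [sq_nonneg ((sn w : ℝ) - 1)]

/-! ### the sum of the inverse cubes -/

theorem harm (N : ℕ) : ∑ k ∈ range N, ((k : ℝ) + 1)⁻¹ ≤ 1 + Real.log N := by
  have h := harmonic_le_one_add_log N
  unfold harmonic at h
  push_cast at h
  exact h

theorem sum_cube (R : ℕ) (hR : 1 ≤ R) (z : V) (hz : nsq z ≤ R ^ 2) :
    ∑ y ∈ BR R, 1 / dd (y - z) ^ 3 ≤ 576 * (1 + Real.log R) := by
  have h1 : ∑ y ∈ BR R, 1 / dd (y - z) ^ 3 ≤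
      ∑ k ∈ range (2 * R + 1), 24 * ((k : ℝ) + 1) ^ 2 * (8 / ((k : ℝ) + 1) ^ 3) := by
    refine shell_sum (BR R) z (2 * R) _ _ (fun k => by positivity)
      (fun y hy => sn_le (mem_BR.1 hy) hz) (fun y hy => ?_)
    have h2 := dd_lower (y - z)
    have h3 := dd_pos (y - z)
    have h4 : ((sn (y - z) : ℝ) + 1) / 2 ≤ dd (y - z) := by
      refine le_of_sq_le_sq ?_ h3.le
      nlinarith [sq_nonneg ((sn (y - z) : ℝ) + 1)]
    have h5 : (((sn (y - z) : ℝ) + 1) / 2) ^ 3 ≤ dd (y - z) ^ 3 :=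
      pow_le_pow_left₀ (by positivity) h4 3
    rw [div_le_div_iff₀ (by positivity) (by positivity)]
    have h6 : (((sn (y - z) : ℝ) + 1) / 2) ^ 3 = ((sn (y - z) : ℝ) + 1) ^ 3 / 8 := by ring
    rw [h6] at h5
    linarith
  have h2 : ∑ k ∈ range (2 * R + 1), 24 * ((k : ℝ) + 1) ^ 2 * (8 / ((k : ℝ) + 1) ^ 3) =
      192 * ∑ k ∈ range (2 * R + 1), ((k : ℝ) + 1)⁻¹ := by
    rw [mul_sum]
    refine sum_congr rfl fun k _ => ?_
    have : (k : ℝ) + 1 ≠ 0 := by positivity
    field_simp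
    norm_num
  have h3 := harm (2 * R + 1)
  have hRr : (1 : ℝ) ≤ R := by exact_mod_cast hR
  have h4 : Real.log ((2 * R + 1 : ℕ) : ℝ) ≤ 2 + Real.log R := by
    have e1 : ((2 * R + 1 : ℕ) : ℝ) ≤ 3 * R := by push_cast; linarith
    have e2 : Real.log ((2 * R + 1 : ℕ) : ℝ) ≤ Real.log (3 * R) :=
      Real.log_le_log (by positivity) e1
    rw [Real.log_mul (by norm_num) (by positivity)] at e2
    have e3 : Real.log 3 ≤ 2 := by
      have := Real.log_le_sub_one_of_pos (show (0 : ℝ) < 3 by norm_num)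
      linarith
    linarith
  have h5 : 0 ≤ Real.log R := Real.log_nonneg hRr
  rw [h2] at h1
  linarith

/-! ### the sum of `kap` -/

theorem kap_le1 (H b : ℝ) : kap H (b ^ 2) ≤ 1 / b ^ 2 := min_le_left _ _

theorem kap_le2 (H b : ℝ) : kap H (b ^ 2) ≤ H ^ 2 / b ^ 4 := by
  refine (min_le_right _ _).trans (le_of_eq ?_)
  rw [← pow_mul]

theorem kap_le3 {H b : ℝ} (hb : 0 < b) (hH : 0 < H) : kap H (b ^ 2) ≤ H / b ^ 3 := by
  rcases le_total b H with h | h
  · refine (kap_le1 H b).trans ?_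
    rw [div_le_div_iff₀ (by positivity) (by positivity)]
    nlinarith [pow_pos hb 2, mul_le_mul_of_nonneg_right h (pow_pos hb 2).le]
  · refine (kap_le2 H b).trans ?_
    rw [div_le_div_iff₀ (by positivity) (by positivity)]
    nlinarith [mul_le_mul_of_nonneg_left h (mul_pos hH (pow_pos hb 3)).le]

theorem kap_nonneg {H D : ℝ} (hD : 0 < D) : 0 ≤ kap H D := le_min (by positivity) (by positivity)

theorem sum_kap (R : ℕ) (z : V) (hz : nsq z ≤ R ^ 2) (H : ℝ) (hH : 1 ≤ H) :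
    ∑ y ∈ BR R, kap H (dd (y - z) ^ 2) ≤ 384 * H := by
  have hH0 : 0 < H := by linarith
  have h1 : ∑ y ∈ BR R, kap H (dd (y - z) ^ 2) ≤
      ∑ k ∈ range (2 * R + 1), 24 * ((k : ℝ) + 1) ^ 2 *
        (16 * H ^ 2 / (((k : ℝ) + 1) ^ 2 * (H + ((k : ℝ) + 1)) ^ 2)) := by
    refine shell_sum (BR R) z (2 * R) _ _ (fun k => by positivity)
      (fun y hy => sn_le (mem_BR.1 hy) hz) (fun y hy => ?_)
    have h2 := dd_lower (y - z)
    have h3 := dd_pos (y - z)
    obtain ⟨κ, hκ⟩ : ∃ κ : ℝ, κ = (sn (y - z) : ℝ) + 1 := ⟨_, rfl⟩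
    rw [← hκ] at h2 ⊢
    have hκ0 : 0 < κ := by rw [hκ]; positivity
    obtain ⟨D, hD⟩ : ∃ D : ℝ, D = dd (y - z) ^ 2 := ⟨_, rfl⟩
    rw [← hD] at h2 ⊢
    have hD0 : 0 < D := by rw [hD]; positivity
    rcases le_total κ H with h | h
    · refine (min_le_left _ _).trans ?_
      rw [div_le_div_iff₀ hD0 (by positivity)]
      have e1 : (H + κ) ^ 2 ≤ 4 * H ^ 2 := by nlinarith
      have e2 : κ ^ 2 * (H + κ) ^ 2 ≤ κ ^ 2 * (4 * H ^ 2) :=
        mul_le_mul_of_nonneg_left e1 (by positivity)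
      have e3 : κ ^ 2 * (4 * H ^ 2) ≤ (2 * D) * (4 * H ^ 2) :=
        mul_le_mul_of_nonneg_right (by linarith) (by positivity)
      nlinarith [mul_pos hD0 (pow_pos hH0 2)]
    · refine (min_le_right _ _).trans ?_
      rw [div_le_div_iff₀ (by positivity) (by positivity)]
      have e1 : (H + κ) ^ 2 ≤ 4 * κ ^ 2 := by nlinarith
      have e2 : κ ^ 2 * (H + κ) ^ 2 ≤ κ ^ 2 * (4 * κ ^ 2) :=
        mul_le_mul_of_nonneg_left e1 (by positivity)
      have e3 : (κ ^ 2) ^ 2 ≤ (2 * D) ^ 2 := pow_le_pow_left₀ (by positivity) (by linarith) 2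
      have e4 : κ ^ 2 * (H + κ) ^ 2 ≤ 16 * D ^ 2 := by nlinarith
      have e5 := mul_le_mul_of_nonneg_left e4 (show 0 ≤ H ^ 2 by positivity)
      linarith
  have h2 : ∑ k ∈ range (2 * R + 1), 24 * ((k : ℝ) + 1) ^ 2 *
        (16 * H ^ 2 / (((k : ℝ) + 1) ^ 2 * (H + ((k : ℝ) + 1)) ^ 2)) ≤
      ∑ k ∈ range (2 * R + 1), 384 * H * ((((k + 1 : ℕ) : ℝ) / (H + ((k + 1 : ℕ) : ℝ))) -
        ((k : ℝ) / (H + (k : ℝ)))) := by
    refine sum_le_sum fun k _ => ?_
    have hk : (0 : ℝ) ≤ k := Nat.cast_nonneg _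
    push_cast
    have e1 : 24 * ((k : ℝ) + 1) ^ 2 * (16 * H ^ 2 / (((k : ℝ) + 1) ^ 2 * (H + ((k : ℝ) + 1)) ^ 2)) =
        384 * H * (H / (H + ((k : ℝ) + 1)) ^ 2) := by
      have : (k : ℝ) + 1 ≠ 0 := by positivity
      have : H + ((k : ℝ) + 1) ≠ 0 := by positivity
      field_simp
      ring
    have e2 : ((k : ℝ) + 1) / (H + ((k : ℝ) + 1)) - (k : ℝ) / (H + (k : ℝ)) =
        H / ((H + ((k : ℝ) + 1)) * (H + (k : ℝ))) := by
      have : H + (k : ℝ) ≠ 0 := by positivity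
      have : H + ((k : ℝ) + 1) ≠ 0 := by positivity
      field_simp
      ring
    rw [e1, e2]
    refine mul_le_mul_of_nonneg_left ?_ (by positivity)
    refine div_le_div_of_nonneg_left hH0.le (by positivity) ?_
    nlinarith
  rw [← mul_sum, sum_range_sub (fun k : ℕ => (k : ℝ) / (H + (k : ℝ)))] at h2
  have h3 : ((2 * R + 1 : ℕ) : ℝ) / (H + ((2 * R + 1 : ℕ) : ℝ)) ≤ 1 := by
    rw [div_le_one (by positivity)]
    linarith
  have h4 : ((0 : ℕ) : ℝ) / (H + ((0 : ℕ) : ℝ)) = 0 := by simp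
  rw [h4, sub_zero] at h2
  have h5 : 384 * H * (((2 * R + 1 : ℕ) : ℝ) / (H + ((2 * R + 1 : ℕ) : ℝ))) ≤ 384 * H * 1 :=
    mul_le_mul_of_nonneg_left h3 (by positivity)
  linarith

/-! ### the mixed sum -/

theorem am_gm {a b : ℝ} (ha : 0 < a) (hb : 0 < b) : 1 / (a * b ^ 2) ≤ 1 / a ^ 3 + 1 / b ^ 3 := by
  rcases le_total a b with h | h
  · have h1 : 1 / (a * b ^ 2) ≤ 1 / a ^ 3 := by
      refine one_div_le_one_div_of_le (by positivity) ?_
      nlinarith [mul_le_mul_of_nonneg_left (pow_le_pow_left₀ ha.le h 2) ha.le]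
    have h2 : 0 ≤ 1 / b ^ 3 := by positivity
    linarith
  · have h1 : 1 / (a * b ^ 2) ≤ 1 / b ^ 3 := by
      refine one_div_le_one_div_of_le (by positivity) ?_
      nlinarith [mul_le_mul_of_nonneg_right h (pow_pos hb 2).le]
    have h2 : 0 ≤ 1 / a ^ 3 := by positivity
    linarith

theorem sum_mix (R : ℕ) (hR : 1 ≤ R) (x z : V) (hx : nsq x ≤ R ^ 2) (hz : nsq z ≤ R ^ 2) :
    ∑ y ∈ BR R, 1 / (dd (x - y) * dd (y - z) ^ 2) ≤ 1152 * (1 + Real.log R) := by
  calc ∑ y ∈ BR R, 1 / (dd (x - y) * dd (y - z) ^ 2)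
      ≤ ∑ y ∈ BR R, (1 / dd (y - x) ^ 3 + 1 / dd (y - z) ^ 3) := by
        refine sum_le_sum fun y _ => ?_
        rw [dd_comm x y]
        exact am_gm (dd_pos _) (dd_pos _)
    _ ≤ 1152 * (1 + Real.log R) := by
        rw [sum_add_distrib]
        have := sum_cube R hR x hx
        have := sum_cube R hR z hz
        linarith

/-! ### the pointwise bounds -/

theorem pt_first {a b t H : ℝ} (ha : 0 < a) (hb : 0 < b) (ht : 0 < t) (hH : 0 < H)
    (h : t ≤ a + b) : 1 / a * kap H (b ^ 2) ≤ 1 / t * (kap H (b ^ 2) + H * (1 / (a * b ^ 2))) := by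
  have h0 : 0 ≤ kap H (b ^ 2) := kap_nonneg (by positivity)
  have h1 := kap_le3 hb hH
  have h2 : b / a * kap H (b ^ 2) ≤ H * (1 / (a * b ^ 2)) := by
    calc b / a * kap H (b ^ 2) ≤ b / a * (H / b ^ 3) :=
          mul_le_mul_of_nonneg_left h1 (by positivity)
      _ = H * (1 / (a * b ^ 2)) := by field_simp
  have h3 : 1 / a * kap H (b ^ 2) * t ≤ kap H (b ^ 2) + b / a * kap H (b ^ 2) := by
    have e : kap H (b ^ 2) + b / a * kap H (b ^ 2) = 1 / a * kap H (b ^ 2) * (a + b) := by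
      field_simp
    rw [e]
    exact mul_le_mul_of_nonneg_left h (by positivity)
  rw [one_div_mul_eq_div t, le_div_iff₀ ht]
  linarith

theorem t_LS : S_LS := by
  intro _ hGU hU1
  obtain ⟨CG, hCG, hG⟩ := hGU
  obtain ⟨C₁, R₀, hC₁, hU⟩ := hU1
  refine ⟨18432 * CG + 960 * C₁, max 1 R₀, by positivity, ?_⟩
  intro R G z hR hIG hz
  have hR1 : 1 ≤ R := (le_max_left _ _).trans hR
  have hR0 : R₀ ≤ R := (le_max_right _ _).trans hR
  have hRr : (1 : ℝ) ≤ R := by exact_mod_cast hR1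
  have hRp : (0 : ℝ) < R := by linarith
  obtain ⟨H, hHdef⟩ : ∃ H : ℝ, H = (R : ℝ) + 1 - nrm z := ⟨_, rfl⟩
  rw [← hHdef]
  obtain ⟨L, hL⟩ : ∃ L : ℝ, L = 1 + Real.log R := ⟨_, rfl⟩
  rw [← hL]
  have hL1 : 1 ≤ L := by
    have := Real.log_nonneg hRr
    linarith
  have hnz : nrm z ≤ R := by
    refine le_of_sq_le_sq ?_ hRp.le
    rw [nrm_sq]
    exact_mod_cast hz
  have hH1 : 1 ≤ H := by linarith
  have hH0 : 0 < H := by linarith
  have hD : ∀ w : V, (nsq w : ℝ) + 1 = dd w ^ 2 := fun w => (dd_sq w).symm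
  simp only [hD]
  have hsq : ∀ w : V, Real.sqrt (dd w ^ 2) = dd w := fun w => Real.sqrt_sq (dd_pos w).le
  simp only [hsq]
  have hG' : ∀ x y, G x y ≤ CG * (1 / dd (x - y)) := by
    intro x y
    have := hG R G hIG x y
    rw [hD, hsq] at this
    rwa [mul_one_div]
  have hmix : ∀ x ∈ BR R, ∑ y ∈ BR R, 1 / (dd (x - y) * dd (y - z) ^ 2) ≤ 1152 * L := by
    intro x hx
    rw [hL]
    exact sum_mix R hR1 x z (mem_BR.1 hx) hz
  have hkap : ∑ y ∈ BR R, kap H (dd (y - z) ^ 2) ≤ 384 * H := sum_kap R z hz H hH1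
  have hcube : ∑ y ∈ BR R, 1 / dd (y - z) ^ 3 ≤ 576 * L := by
    rw [hL]
    exact sum_cube R hR1 z hz
  refine ⟨fun x hx => ?_, fun x hx => ?_, ?_⟩
  · have hb1 : ∑ y ∈ BR R, G x y * kap H (dd (y - z) ^ 2) ≤ (18432 * CG + 960 * C₁) * L := by
      calc ∑ y ∈ BR R, G x y * kap H (dd (y - z) ^ 2)
          ≤ ∑ y ∈ BR R, CG * (1 / (dd (x - y) * dd (y - z) ^ 2)) := by
            refine sum_le_sum fun y _ => ?_
            have h1 := dd_pos (x - y)
            have h2 := dd_pos (y - z)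
            calc G x y * kap H (dd (y - z) ^ 2)
                ≤ (CG * (1 / dd (x - y))) * (1 / dd (y - z) ^ 2) :=
                  mul_le_mul (hG' x y) (kap_le1 _ _) (kap_nonneg (by positivity)) (by positivity)
              _ = CG * (1 / (dd (x - y) * dd (y - z) ^ 2)) := by
                  rw [mul_assoc, one_div_mul_one_div]
        _ ≤ CG * (1152 * L) := by
            rw [← mul_sum]
            exact mul_le_mul_of_nonneg_left (hmix x hx) hCG.le
        _ ≤ (18432 * CG + 960 * C₁) * L := by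
            have : 0 ≤ C₁ * L := by positivity
            have : 0 ≤ CG * L := by positivity
            nlinarith
    have ht := dd_pos (x - z)
    have hb2 : ∑ y ∈ BR R, G x y * kap H (dd (y - z) ^ 2) ≤
        (18432 * CG + 960 * C₁) * L * (H / dd (x - z)) := by
      calc ∑ y ∈ BR R, G x y * kap H (dd (y - z) ^ 2)
          ≤ ∑ y ∈ BR R, CG * (1 / dd (x - z) * (kap H (dd (y - z) ^ 2) +
              H * (1 / (dd (x - y) * dd (y - z) ^ 2)))) := by
            refine sum_le_sum fun y _ => ?_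
            have h1 := dd_pos (x - y)
            have h2 := dd_pos (y - z)
            have h3 : dd (x - z) ≤ dd (x - y) + dd (y - z) := by
              have := dd_add_le (x - y) (y - z)
              rwa [sub_add_sub_cancel] at this
            have h4 := pt_first h1 h2 ht hH0 h3
            calc G x y * kap H (dd (y - z) ^ 2)
                ≤ (CG * (1 / dd (x - y))) * kap H (dd (y - z) ^ 2) :=
                  mul_le_mul_of_nonneg_right (hG' x y) (kap_nonneg (by positivity))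
              _ = CG * (1 / dd (x - y) * kap H (dd (y - z) ^ 2)) := by ring
              _ ≤ _ := mul_le_mul_of_nonneg_left h4 hCG.le
        _ = CG * (1 / dd (x - z) * (∑ y ∈ BR R, kap H (dd (y - z) ^ 2) +
              H * ∑ y ∈ BR R, 1 / (dd (x - y) * dd (y - z) ^ 2))) := by
            rw [← mul_sum, ← mul_sum, sum_add_distrib, ← mul_sum]
        _ ≤ CG * (1 / dd (x - z) * (384 * H + H * (1152 * L))) := by
            refine mul_le_mul_of_nonneg_left (mul_le_mul_of_nonneg_left ?_ (by positivity)) hCG.le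
            exact add_le_add hkap (mul_le_mul_of_nonneg_left (hmix x hx) hH0.le)
        _ = (CG * 384 + CG * 1152 * L) * (H / dd (x - z)) := by ring
        _ ≤ (18432 * CG + 960 * C₁) * L * (H / dd (x - z)) := by
            refine mul_le_mul_of_nonneg_right ?_ (by positivity)
            have : 0 ≤ C₁ * L := by positivity
            nlinarith [mul_le_mul_of_nonneg_left hL1 hCG.le]
    rcases le_total 1 (H / dd (x - z)) with h | h
    · rw [min_eq_left h, mul_one]
      exact hb1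
    · rw [min_eq_right h]
      exact hb2
  · calc ∑ y ∈ BR R, G x y * min 1 (H ^ 2 / dd (y - z) ^ 2)
        ≤ ∑ y ∈ BR R, (CG * H ^ 2) * (1 / (dd (x - y) * dd (y - z) ^ 2)) := by
          refine sum_le_sum fun y _ => ?_
          have h1 := dd_pos (x - y)
          have h2 := dd_pos (y - z)
          calc G x y * min 1 (H ^ 2 / dd (y - z) ^ 2)
              ≤ (CG * (1 / dd (x - y))) * (H ^ 2 / dd (y - z) ^ 2) :=
                mul_le_mul (hG' x y) (min_le_right _ _) (le_min zero_le_one (by positivity))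
                  (by positivity)
            _ = (CG * H ^ 2) * (1 / (dd (x - y) * dd (y - z) ^ 2)) := by
                field_simp
      _ ≤ (CG * H ^ 2) * (1152 * L) := by
          rw [← mul_sum]
          exact mul_le_mul_of_nonneg_left (hmix x hx) (by positivity)
      _ ≤ (18432 * CG + 960 * C₁) * L * H ^ 2 := by
          have : 0 ≤ C₁ * L * H ^ 2 := by positivity
          have : 0 ≤ CG * L * H ^ 2 := by positivity
          nlinarith
  · have hpt : ∀ y ∈ BR R, G 0 y * kap H (dd (y - z) ^ 2) ≤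
        (16 * CG * H ^ 2 / (R : ℝ) ^ 2) * (1 / (dd (0 - y) * dd (y - z) ^ 2)) +
        (C₁ / (R : ℝ) ^ 2) * (H * kap H (dd (y - z) ^ 2) + H ^ 2 * (1 / dd (y - z) ^ 3)) := by
      intro y hy
      have h1 := dd_pos (0 - y)
      have h2 := dd_pos (y - z)
      have hy' := mem_BR.1 hy
      have hk0 : 0 ≤ kap H (dd (y - z) ^ 2) := kap_nonneg (by positivity)
      have htri : nrm z ≤ nrm y + dd (y - z) := by
        have e1 := nrm_add_le y (z - y)
        rw [add_sub_cancel] at e1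
        have e2 := nrm_le_dd (z - y)
        rw [dd_comm] at e2
        linarith
      by_cases hc : R ^ 2 ≤ 4 * nsq y
      · have h3 := hU R G y 0 hR0 hIG hy' hc (by simp [nsq])
        have htri' : nrm z ≤ nrm y + dd (y - z) := htri
        have h4 : (R : ℝ) + 1 - nrm y ≤ H + dd (y - z) := by rw [hHdef]; linarith
        have h5 : G 0 y ≤ C₁ / (R : ℝ) ^ 2 * (H + dd (y - z)) := by
          rw [hIG.symm 0 y]
          refine h3.trans ?_
          rw [mul_div_right_comm]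
          exact mul_le_mul_of_nonneg_left h4 (by positivity)
        have h6 : dd (y - z) * kap H (dd (y - z) ^ 2) ≤ H ^ 2 * (1 / dd (y - z) ^ 3) := by
          calc dd (y - z) * kap H (dd (y - z) ^ 2) ≤ dd (y - z) * (H ^ 2 / dd (y - z) ^ 4) :=
                mul_le_mul_of_nonneg_left (kap_le2 _ _) h2.le
            _ = H ^ 2 * (1 / dd (y - z) ^ 3) := by field_simp
        calc G 0 y * kap H (dd (y - z) ^ 2)
            ≤ (C₁ / (R : ℝ) ^ 2 * (H + dd (y - z))) * kap H (dd (y - z) ^ 2) :=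
              mul_le_mul_of_nonneg_right h5 hk0
          _ = (C₁ / (R : ℝ) ^ 2) * (H * kap H (dd (y - z) ^ 2) +
                dd (y - z) * kap H (dd (y - z) ^ 2)) := by ring
          _ ≤ (C₁ / (R : ℝ) ^ 2) * (H * kap H (dd (y - z) ^ 2) + H ^ 2 * (1 / dd (y - z) ^ 3)) :=
              mul_le_mul_of_nonneg_left (by linarith) (by positivity)
          _ ≤ _ := le_add_of_nonneg_left (by positivity)
      · push Not at hc
        have hcr : 4 * (nsq y : ℝ) < (R : ℝ) ^ 2 := by exact_mod_cast hc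
        have hny : nrm y ≤ (R : ℝ) / 2 := by
          refine le_of_sq_le_sq ?_ (by positivity)
          rw [nrm_sq]
          nlinarith
        have h3 : kap H (dd (y - z) ^ 2) ≤ (16 * H ^ 2 / (R : ℝ) ^ 2) * (1 / dd (y - z) ^ 2) := by
          by_cases hb : (R : ℝ) / 4 ≤ dd (y - z)
          · refine (kap_le2 _ _).trans ?_
            have e1 : (R : ℝ) ^ 2 / 16 ≤ dd (y - z) ^ 2 := by nlinarith
            rw [div_mul_div_comm, mul_one, div_le_div_iff₀ (by positivity) (by positivity)]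
            have e2 : (R : ℝ) ^ 2 ≤ 16 * dd (y - z) ^ 2 := by linarith
            calc H ^ 2 * ((R : ℝ) ^ 2 * dd (y - z) ^ 2)
                ≤ H ^ 2 * (16 * dd (y - z) ^ 2 * dd (y - z) ^ 2) := by gcongr
              _ = 16 * H ^ 2 * dd (y - z) ^ 4 := by ring
          · push Not at hb
            refine (kap_le1 _ _).trans ?_
            have e1 : (R : ℝ) / 4 ≤ H := by rw [hHdef]; linarith
            have e2 : 1 ≤ 16 * H ^ 2 / (R : ℝ) ^ 2 := by
              rw [le_div_iff₀ (by positivity)]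
              nlinarith
            exact le_mul_of_one_le_left (by positivity) e2
        calc G 0 y * kap H (dd (y - z) ^ 2)
            ≤ (CG * (1 / dd (0 - y))) * ((16 * H ^ 2 / (R : ℝ) ^ 2) * (1 / dd (y - z) ^ 2)) :=
              mul_le_mul (hG' 0 y) h3 hk0 (by positivity)
          _ = (16 * CG * H ^ 2 / (R : ℝ) ^ 2) * (1 / (dd (0 - y) * dd (y - z) ^ 2)) := by
              field_simp
          _ ≤ _ := le_add_of_nonneg_right (by positivity)
    have h0 : (0 : V) ∈ BR R := by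
      rw [mem_BR]
      simp [nsq]
    calc ∑ y ∈ BR R, G 0 y * kap H (dd (y - z) ^ 2)
        ≤ ∑ y ∈ BR R, ((16 * CG * H ^ 2 / (R : ℝ) ^ 2) * (1 / (dd (0 - y) * dd (y - z) ^ 2)) +
          (C₁ / (R : ℝ) ^ 2) * (H * kap H (dd (y - z) ^ 2) + H ^ 2 * (1 / dd (y - z) ^ 3))) :=
          sum_le_sum hpt
      _ = (16 * CG * H ^ 2 / (R : ℝ) ^ 2) * (∑ y ∈ BR R, 1 / (dd (0 - y) * dd (y - z) ^ 2)) +
          (C₁ / (R : ℝ) ^ 2) * (H * (∑ y ∈ BR R, kap H (dd (y - z) ^ 2)) +
            H ^ 2 * ∑ y ∈ BR R, 1 / dd (y - z) ^ 3) := by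
          rw [sum_add_distrib, ← mul_sum, ← mul_sum, sum_add_distrib, ← mul_sum, ← mul_sum]
      _ ≤ (16 * CG * H ^ 2 / (R : ℝ) ^ 2) * (1152 * L) +
          (C₁ / (R : ℝ) ^ 2) * (H * (384 * H) + H ^ 2 * (576 * L)) := by
          refine add_le_add (mul_le_mul_of_nonneg_left (hmix 0 h0) (by positivity)) ?_
          refine mul_le_mul_of_nonneg_left (add_le_add ?_ ?_) (by positivity)
          · exact mul_le_mul_of_nonneg_left hkap hH0.le
          · exact mul_le_mul_of_nonneg_left hcube (by positivity)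
      _ = (18432 * CG * L + C₁ * (384 + 576 * L)) * (H ^ 2 / (R : ℝ) ^ 2) := by ring
      _ ≤ ((18432 * CG + 960 * C₁) * L) * (H ^ 2 / (R : ℝ) ^ 2) := by
          refine mul_le_mul_of_nonneg_right ?_ (by positivity)
          nlinarith [mul_le_mul_of_nonneg_left hL1 hC₁.le]
      _ = (18432 * CG + 960 * C₁) * L * H ^ 2 / (R : ℝ) ^ 2 := by ring

end Pool.Agent.K1H36.BI3
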